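import Pool.Agent.TH270.Rec.SeqPoint
import Pool.Agent.TH270.Rec.Blocks

set_option autoImplicit false

namespace Pool.Agent.Results.MP_94b3e1_an.SeparableDenseLineable

open Filter Topology Set Pool.Agent.TH270.Rec

universe u v

/-- `x` is reiteratively recurrent for `T`: the return times of `x` to each of its neighbourhoods
have positive upper Banach density (for some `δ > 0`, among every number `N` of consecutive
integers, suitably placed, at least `δ * N` are return times). -/
def IsReit {X : Type*} [TopologicalSpace X] (T : X → X) (x : X) : Prop :=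
  ∀ U ∈ 𝓝 x, ∃ δ : ℝ, 0 < δ ∧ ∀ N : ℕ, 1 ≤ N → ∃ m : ℕ,
    δ * (N : ℝ) ≤ (({n : ℕ | m ≤ n ∧ n < m + N ∧ T^[n] x ∈ U}).ncard : ℝ)

lemma isReit_iff {X : Type*} [TopologicalSpace X] (T : X → X) (x : X) :
    IsReit T x ↔ RR T x := by
  constructor
  · intro h G hG hx
    exact (posBD_iff _).2 (h G (hG.mem_nhds hx))
  · intro h U hU
    obtain ⟨G, hGU, hG, hx⟩ := mem_nhds_iff.1 hU
    obtain ⟨δ, hδ, H⟩ := (posBD_iff _).1 (h G hG hx)
    refine ⟨δ, hδ, fun N hN => ?_⟩
    obtain ⟨m, hm⟩ := H N hN
    refine ⟨m, hm.trans ?_⟩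
    have hfin : ({n : ℕ | m ≤ n ∧ n < m + N ∧ T^[n] x ∈ U}).Finite :=
      (Set.finite_Ico m (m + N)).subset fun n hn => ⟨hn.1, hn.2.1⟩
    have hsub : {n : ℕ | m ≤ n ∧ n < m + N ∧ n ∈ {n : ℕ | T^[n] x ∈ G}} ⊆
        {n : ℕ | m ≤ n ∧ n < m + N ∧ T^[n] x ∈ U} := fun n hn => ⟨hn.1, hn.2.1, hGU hn.2.2⟩
    exact_mod_cast Set.ncard_le_ncard hsub hfin

/-- The product map on sequences. -/
def prodMap {X : Type*} (T : X → X) (p : ℕ → X) : ℕ → X := fun j => T (p j)

lemma prodMap_iterate {X : Type*} (T : X → X) (n : ℕ) (p : ℕ → X) (j : ℕ) :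
    (prodMap T)^[n] p j = T^[n] (p j) := by
  induction n with
  | zero => rfl
  | succ n ih => rw [Function.iterate_succ_apply', Function.iterate_succ_apply', ← ih]; rfl

open scoped Classical in
/-- A sequence all of whose initial segments are reiteratively recurrent is reiteratively
recurrent. -/
lemma rr_seq {X : Type*} [TopologicalSpace X] {T : X → X} {z : ℕ → X}
    (h : ∀ n, RR (SS T n) (restr n z)) : RR (prodMap T) z := by
  intro G hG hz
  obtain ⟨I, t, ht, hsub⟩ := isOpen_pi_iff.1 hG z hz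
  obtain ⟨n, hn⟩ : ∃ n, ∀ i ∈ I, i < n := ⟨I.sup id + 1, fun i hi =>
    Nat.lt_succ_of_le (Finset.le_sup (f := id) hi)⟩
  set G' : Set (Fin n → X) := {w | ∀ j : Fin n, (j : ℕ) ∈ I → w j ∈ t j} with hG'
  have hG'o : IsOpen G' := by
    have : G' = ⋂ j : Fin n, {w : Fin n → X | (j : ℕ) ∈ I → w j ∈ t j} := by
      ext w; simp [hG']
    rw [this]
    refine isOpen_iInter_of_finite fun j => ?_
    by_cases hj : (j : ℕ) ∈ I
    · simp only [hj, true_imp_iff]
      exact (ht j hj).1.preimage (continuous_apply j)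
    · simp only [hj, false_imp_iff, Set.ofPred_true]
      exact isOpen_univ
  have hzG' : restr n z ∈ G' := fun j hj => (ht j hj).2
  obtain ⟨δ, hδ, H⟩ := h n G' hG'o hzG'
  refine ⟨δ, hδ, fun N => ?_⟩
  obtain ⟨a, L, h1, h2, h3⟩ := H N
  refine ⟨a, L, h1, h2, h3.trans (Nat.cast_le.2 (Finset.card_le_card fun k hk => ?_))⟩
  have hk' := (@Finset.mem_filter _ _ (_) _ _).1 hk
  refine (@Finset.mem_filter _ _ (_) _ _).2 ⟨hk'.1, hsub ?_⟩
  intro i hi
  have h4 := hk'.2 ⟨i, hn i hi⟩ hi
  rw [SS_iterate] at h4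
  rw [prodMap_iterate]
  exact h4

section

variable {𝕂 : Type*} {X : Type u} [RCLike 𝕂] [AddCommGroup X] [Module 𝕂 X] [UniformSpace X]
  [IsUniformAddGroup X] [ContinuousSMul 𝕂 X]

/-- The space of all values at `z` of continuous maps `X^ℕ → X` intertwining the product map
with `T`. -/
def big (T : X →L[𝕂] X) (z : ℕ → X) : Submodule 𝕂 X where
  carrier := {x | ∃ f : (ℕ → X) → X, Continuous f ∧ (∀ p, f (prodMap T p) = T (f p)) ∧ f z = x}
  add_mem' := by
    rintro _ _ ⟨f, hf, hf', rfl⟩ ⟨g, hg, hg', rfl⟩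
    exact ⟨fun p => f p + g p, hf.add hg, fun p => by simp only [hf', hg', map_add], rfl⟩
  zero_mem' := ⟨fun _ => 0, continuous_const, fun p => (map_zero T).symm, rfl⟩
  smul_mem' := by
    rintro a _ ⟨f, hf, hf', rfl⟩
    exact ⟨fun p => a • f p, hf.const_smul a, fun p => by simp only [hf', map_smul], rfl⟩

theorem general [CompleteSpace X] [(uniformity X).IsCountablyGenerated] (T : X →L[𝕂] X)
    (S : Set X) (hS : TopologicalSpace.IsSeparable S) (hSc : S ⊆ closure {x : X | IsReit T x}) :
    ∃ M : Submodule 𝕂 X, S ⊆ closure (M : Set X) ∧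
      (∀ g : X → X, Continuous g → (∀ x, g (T x) = T (g x)) → ∀ x ∈ M, g x ∈ M) ∧
      ∀ (ι : Type v) (w : ι → X), (∀ i, w i ∈ M) →
        IsReit (fun (p : ι → X) (i : ι) => T (p i)) w := by
  let _ : PseudoMetricSpace X := UniformSpace.pseudoMetricSpace X
  have h0 : (0 : X) ∈ {x : X | IsReit T x} := by
    show IsReit T 0
    rw [isReit_iff]
    intro G _ hG
    convert posBD_univ using 1
    rw [Set.eq_univ_iff_forall]
    intro n
    show T^[n] 0 ∈ G
    have : T^[n] 0 = 0 := Function.iterate_fixed (map_zero T) n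
    rw [this]
    exact hG
  set S' : Set X := insert 0 S with hS'
  have hS's : TopologicalSpace.IsSeparable S' := by
    rw [hS', Set.insert_eq]
    exact (Set.countable_singleton (0 : X)).isSeparable.union hS
  have hS'c : S' ⊆ closure {x : X | IsReit T x} := Set.insert_subset (subset_closure h0) hSc
  obtain ⟨c, hcS, hc, hSc'⟩ := hS's.exists_countable_dense_subset
  have hcne : c.Nonempty := by
    have : (0 : X) ∈ closure c := hSc' (Set.mem_insert _ _)
    exact closure_nonempty_iff.1 ⟨0, this⟩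
  obtain ⟨d, hd⟩ := hc.exists_eq_range hcne
  have hx : ∀ j : ℕ, ∃ x : X, IsReit T x ∧ dist (d (Nat.unpair j).1) x < (1 / 2) ^ j := by
    intro j
    have h1 : d (Nat.unpair j).1 ∈ closure {x : X | IsReit T x} :=
      hS'c (hcS (hd ▸ Set.mem_range_self _))
    exact Metric.mem_closure_iff.1 h1 _ (by positivity)
  choose x hx1 hx2 using hx
  obtain ⟨z, hz1, hz2⟩ := exists_seq T.continuous (fun j => (isReit_iff _ _).1 (hx1 j))
  have hz := rr_seq hz2
  refine ⟨big T z, ?_, ?_, ?_⟩
  · refine ((Set.subset_insert _ _).trans hSc').trans (closure_minimal ?_ isClosed_closure)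
    rw [hd]
    rintro _ ⟨k, rfl⟩
    rw [Metric.mem_closure_iff]
    intro ε hε
    obtain ⟨l, hl⟩ := exists_pow_lt_of_lt_one (half_pos hε) (by norm_num : (1 / 2 : ℝ) < 1)
    refine ⟨z (Nat.pair k l), ⟨fun p => p (Nat.pair k l), continuous_apply _, fun p => rfl, rfl⟩, ?_⟩
    have h1 := hx2 (Nat.pair k l)
    rw [Nat.unpair_pair] at h1
    have h2 := hz1 (Nat.pair k l)
    have h3 : (1 / 2 : ℝ) ^ (Nat.pair k l) ≤ (1 / 2) ^ l :=
      pow_le_pow_of_le_one (by norm_num) (by norm_num) (Nat.right_le_pair k l)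
    calc dist (d k) (z (Nat.pair k l)) ≤ dist (d k) (x (Nat.pair k l)) +
          dist (x (Nat.pair k l)) (z (Nat.pair k l)) := dist_triangle _ _ _
      _ < ε := by
          rw [dist_comm (x _)]
          linarith
  · rintro g hg hgT _ ⟨f, hf, hf', rfl⟩
    exact ⟨fun p => g (f p), hg.comp hf, fun p => by simp only [hf', hgT], rfl⟩
  · intro ι w hw
    choose f hf hf' hfw using hw
    rw [isReit_iff]
    have h1 : Continuous fun (p : ℕ → X) (i : ι) => f i p := continuous_pi hf
    have h2 := RR.factor (S' := fun (p : ι → X) (i : ι) => T (p i)) h1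
      (fun p => funext fun i => hf' i p) hz
    have h3 : (fun i => f i z) = w := funext hfw
    rw [← h3]
    exact h2

end

/-- Q1 for separable Banach spaces, and its general form: on a complete metrizable topological
vector space `X` (possibly non-separable), for every separable set `S` of limits of reiteratively
recurrent vectors of `T` there is a vector subspace `M` whose closure contains `S`, which is
invariant under every continuous map commuting with `T` (in particular under `T`), and such that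
every family of elements of `M` is reiteratively recurrent for the product map (in particular
every element, every pair, ... of elements of `M`). -/
theorem result (𝕂 : Type*) [RCLike 𝕂] :
    (∀ (X : Type u) [NormedAddCommGroup X] [NormedSpace 𝕂 X] [CompleteSpace X]
      [TopologicalSpace.SeparableSpace X] (T : X →L[𝕂] X), Dense {x : X | IsReit T x} →
      ∃ M : Submodule 𝕂 X, Dense (M : Set X) ∧ ∀ x ∈ M, IsReit T x) ∧
    (∀ (X : Type u) [AddCommGroup X] [Module 𝕂 X] [UniformSpace X] [IsUniformAddGroup X]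
      [ContinuousSMul 𝕂 X] [CompleteSpace X] [(uniformity X).IsCountablyGenerated]
      (T : X →L[𝕂] X) (S : Set X), TopologicalSpace.IsSeparable S →
      S ⊆ closure {x : X | IsReit T x} →
      ∃ M : Submodule 𝕂 X, S ⊆ closure (M : Set X) ∧
        (∀ g : X → X, Continuous g → (∀ x, g (T x) = T (g x)) → ∀ x ∈ M, g x ∈ M) ∧
        ∀ (ι : Type v) (w : ι → X), (∀ i, w i ∈ M) →
          IsReit (fun (p : ι → X) (i : ι) => T (p i)) w) := by
  refine ⟨?_, fun X _ _ _ _ _ _ _ T S hS hSc => general T S hS hSc⟩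
  intro X _ _ _ _ T hT
  obtain ⟨M, hM1, hM2, hM3⟩ := general.{u, 0} T Set.univ (TopologicalSpace.IsSeparable.of_separableSpace _)
    (fun x _ => hT x)
  refine ⟨M, fun x => hM1 (Set.mem_univ x), fun x hx => ?_⟩
  have h1 := (isReit_iff _ _).1 (hM3 Unit (fun _ => x) (fun _ => hx))
  rw [isReit_iff]
  exact RR.factor (S := fun (p : Unit → X) (i : Unit) => T (p i)) (S' := T)
    (f := fun p : Unit → X => p ()) (continuous_apply ()) (fun p => rfl) h1

end Pool.Agent.Results.MP_94b3e1_an.SeparableDenseLineable
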